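import Mathlib

namespace Pool.Agent.Results.MP_814ec7_co.Q1

/-- `s` is the steering word of a splitting `ℕ = N¹ ⊔ N²` (`N¹ = {n | s n = true}`,
`N² = {n | s n = false}`) into two infinite sets with `x[N¹] = x[N²] = x`. -/
def Steers {A : Type} (x : ℕ → A) (s : ℕ → Bool) : Prop :=
  {n | s n = true}.Infinite ∧ {n | s n = false}.Infinite ∧
  (∀ i, x (Nat.nth (fun n => s n = true) i) = x i) ∧
  (∀ i, x (Nat.nth (fun n => s n = false) i) = x i)

def z (k : ℕ) : Fin 4 :=
  if h : k < 4 then ⟨k, h⟩ else if k % 2 = 0 then z (k / 2 - 1) else z (k / 2 - 2)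
decreasing_by all_goals omega

lemma z_small (k : ℕ) (h : k < 4) : z k = ⟨k, h⟩ := by rw [z]; simp [h]

lemma z_even (m : ℕ) : z (4 + 2 * m) = z (1 + m) := by
  rw [z, dif_neg (by omega), if_pos (by omega)]; congr 1; omega

lemma z_odd (m : ℕ) : z (5 + 2 * m) = z m := by
  rw [z, dif_neg (by omega), if_neg (by omega)]; congr 1; omega

lemma z0 : z 0 = 0 := z_small 0 (by omega)
lemma z1 : z 1 = 1 := z_small 1 (by omega)
lemma z2 : z 2 = 2 := z_small 2 (by omega)
lemma z3 : z 3 = 3 := z_small 3 (by omega)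
lemma z4 : z 4 = 1 := (z_even 0).trans z1
lemma z5 : z 5 = 0 := (z_odd 0).trans z0

lemma z_ne (k : ℕ) : z k ≠ z (k + 1) ∧ z k ≠ z (k + 2) := by
  induction k using Nat.strong_induction_on with
  | _ k ih =>
    by_cases h : k < 4
    · interval_cases k <;> simp [z0, z1, z2, z3, z4, z5]
    · rcases Nat.even_or_odd' k with ⟨t, ht | ht⟩
      · obtain ⟨m, rfl⟩ : ∃ m, k = 4 + 2 * m := ⟨t - 2, by omega⟩
        have e1 : 4 + 2 * m + 1 = 5 + 2 * m := by omega
        have e2 : 4 + 2 * m + 2 = 4 + 2 * (m + 1) := by omega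
        rw [e1, e2, z_even, z_odd, z_even]
        have h1 := (ih m (by omega)).1
        have h2 := (ih (1 + m) (by omega)).1
        exact ⟨by rw [add_comm 1 m]; exact h1.symm, by rw [← add_assoc]; exact h2⟩
      · obtain ⟨m, rfl⟩ : ∃ m, k = 5 + 2 * m := ⟨t - 2, by omega⟩
        have e1 : 5 + 2 * m + 1 = 4 + 2 * (m + 1) := by omega
        have e2 : 5 + 2 * m + 2 = 5 + 2 * (m + 1) := by omega
        rw [e1, e2, z_even, z_odd, z_odd]
        have h1 := ih m (by omega)
        exact ⟨by rw [show 1 + (m + 1) = m + 2 by omega]; exact h1.2, h1.1⟩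

def fs : Fin 4 → Fin 5 := ![1, 0, 1, 0]
def sn : Fin 4 → Fin 5 := ![2, 3, 4, 2]

def x (p : ℕ) : Fin 5 :=
  if h : p < 5 then ⟨p, h⟩ else if p = 5 then 0
  else if p % 2 = 0 then fs (z ((p - 6) / 2)) else sn (z ((p - 6) / 2))

lemma x_e (k : ℕ) : x (6 + 2 * k) = fs (z k) := by
  rw [x, dif_neg (by omega), if_neg (by omega), if_pos (by omega)]; congr 2; omega

lemma x_o (k : ℕ) : x (7 + 2 * k) = sn (z k) := by
  rw [x, dif_neg (by omega), if_neg (by omega), if_neg (by omega)]; congr 2; omega

lemma fs_sn : ∀ a b, fs a ≠ sn b := by decide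
lemma fs_sn_inj : ∀ a b, fs a = fs b → sn a = sn b → a = b := by decide
lemma sn_ne : ∀ a, sn a ≠ 0 ∧ sn a ≠ 1 := by decide

def xl : List (Fin 5) := [0, 1, 2, 3, 4, 0, 1, 2, 0, 3, 1, 4, 0, 2, 0, 3]

lemma x_small (p : ℕ) (h : p < 16) : x p = xl.getD p 0 := by
  interval_cases p <;> simp [x, xl, fs, sn, z0, z1, z2, z3, z4]

def sl : List Bool := [true, true, true, true, true, false, false, false, true, false, true,
  false, false, true]

def s0 (n : ℕ) : Bool := if n < 14 then sl.getD n true else decide ((n - 14) % 4 < 2)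

def jl : List ℕ := [0, 0, 0, 0, 0, 0, 1, 2, 3, 3, 4, 4, 5, 6]

def J0 (n : ℕ) : ℕ :=
  if n < 14 then jl.getD n 0 else 6 + 2 * ((n - 14) / 4) + (if (n - 14) % 4 = 3 then 1 else 0)

def mv (n j : ℕ) (b : Bool) : Prop := x n = x (if b = true then n - j else j)

lemma J0_succ (n : ℕ) : J0 (n + 1) = J0 n + if s0 n = false then 1 else 0 := by
  by_cases h : n < 14
  · interval_cases n <;> simp [J0, s0, jl, sl]
  · simp only [J0, s0, if_neg h, if_neg (show ¬ n + 1 < 14 by omega), decide_eq_false_iff_not]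
    split_ifs <;> omega

lemma cases4 (n : ℕ) (h : ¬ n < 14) : ∃ m, n = 14 + 4 * m ∨ n = 15 + 4 * m ∨ n = 16 + 4 * m ∨
    n = 17 + 4 * m := ⟨(n - 14) / 4, by omega⟩

lemma v0 (m : ℕ) : s0 (14 + 4 * m) = true ∧ J0 (14 + 4 * m) = 6 + 2 * m := by
  simp only [s0, J0, if_neg (show ¬ 14 + 4 * m < 14 by omega), decide_eq_true_iff]
  split_ifs <;> omega
lemma v1 (m : ℕ) : s0 (15 + 4 * m) = true ∧ J0 (15 + 4 * m) = 6 + 2 * m := by
  simp only [s0, J0, if_neg (show ¬ 15 + 4 * m < 14 by omega), decide_eq_true_iff]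
  split_ifs <;> omega
lemma v2 (m : ℕ) : s0 (16 + 4 * m) = false ∧ J0 (16 + 4 * m) = 6 + 2 * m := by
  simp only [s0, J0, if_neg (show ¬ 16 + 4 * m < 14 by omega), decide_eq_false_iff_not]
  split_ifs <;> omega
lemma v3 (m : ℕ) : s0 (17 + 4 * m) = false ∧ J0 (17 + 4 * m) = 7 + 2 * m := by
  simp only [s0, J0, if_neg (show ¬ 17 + 4 * m < 14 by omega), decide_eq_false_iff_not]
  split_ifs <;> omega

lemma xa (m : ℕ) : x (14 + 4 * m) = fs (z (m + 1)) := by
  rw [show 14 + 4 * m = 6 + 2 * (4 + 2 * m) by omega, x_e, z_even, add_comm]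
lemma xb (m : ℕ) : x (15 + 4 * m) = sn (z (m + 1)) := by
  rw [show 15 + 4 * m = 7 + 2 * (4 + 2 * m) by omega, x_o, z_even, add_comm]
lemma xc (m : ℕ) : x (16 + 4 * m) = fs (z m) := by
  rw [show 16 + 4 * m = 6 + 2 * (5 + 2 * m) by omega, x_e, z_odd]
lemma xd (m : ℕ) : x (17 + 4 * m) = sn (z m) := by
  rw [show 17 + 4 * m = 7 + 2 * (5 + 2 * m) by omega, x_o, z_odd]

lemma mv0 (n : ℕ) : mv n (J0 n) (s0 n) := by
  by_cases h : n < 14
  · unfold mv
    rw [x_small n (by omega), x_small _ (by interval_cases n <;> simp [s0, J0, sl, jl])]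
    interval_cases n <;> simp [s0, J0, sl, jl, xl]
  · obtain ⟨m, rfl | rfl | rfl | rfl⟩ := cases4 n h
    · simp only [mv, v0 m, if_true]
      rw [xa, show 14 + 4 * m - (6 + 2 * m) = 6 + 2 * (m + 1) by omega, x_e]
    · simp only [mv, v1 m, if_true]
      rw [xb, show 15 + 4 * m - (6 + 2 * m) = 7 + 2 * (m + 1) by omega, x_o]
    · simp only [mv, v2 m, Bool.false_eq_true, if_false]
      rw [xc, x_e]
    · simp only [mv, v3 m, Bool.false_eq_true, if_false]
      rw [xd, x_o]

lemma dev (n : ℕ) (h0 : n ≠ 0) (h5 : n ≠ 5) (b b' : Bool) (hb : b ≠ s0 n) (h1 : mv n (J0 n) b)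
    (h2 : mv (n + 1) (J0 n + if b = false then 1 else 0) b') : False := by
  by_cases h : n < 14
  · unfold mv at h1 h2
    have hj : J0 n < 14 := by interval_cases n <;> simp [J0, jl]
    rw [x_small n (by omega), x_small _ (by split_ifs <;> omega)] at h1
    rw [x_small (n + 1) (by omega), x_small _ (by split_ifs <;> omega)] at h2
    interval_cases n <;> cases b <;> cases b' <;> simp_all [s0, J0, sl, jl, xl]
  · obtain ⟨m, rfl | rfl | rfl | rfl⟩ := cases4 n h
    · rw [(v0 m).1] at hb
      rw [(v0 m).2] at h1 h2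
      cases b
      · simp only [mv, Bool.false_eq_true, if_false, if_true] at h1 h2
        rw [xa, x_e] at h1
        rw [show 14 + 4 * m + 1 = 15 + 4 * m by omega, xb] at h2
        split_ifs at h2
        · rw [show 15 + 4 * m - (6 + 2 * m + 1) = 6 + 2 * (m + 1) by omega, x_e] at h2
          exact fs_sn _ _ h2.symm
        · rw [show 6 + 2 * m + 1 = 7 + 2 * m by omega, x_o] at h2
          exact (z_ne m).1 (fs_sn_inj _ _ h1 h2).symm
      · exact hb rfl
    · rw [(v1 m).1] at hb
      rw [(v1 m).2] at h1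
      cases b
      · simp only [mv, Bool.false_eq_true, if_false] at h1
        rw [xb, x_e] at h1
        exact fs_sn _ _ h1.symm
      · exact hb rfl
    · rw [(v2 m).1] at hb
      rw [(v2 m).2] at h1 h2
      cases b
      · exact hb rfl
      · simp only [mv, if_true, Bool.true_eq_false, if_false, add_zero] at h1 h2
        rw [xc, show 16 + 4 * m - (6 + 2 * m) = 6 + 2 * (m + 2) by omega, x_e] at h1
        rw [show 16 + 4 * m + 1 = 17 + 4 * m by omega, xd] at h2
        split_ifs at h2
        · rw [show 17 + 4 * m - (6 + 2 * m) = 7 + 2 * (m + 2) by omega, x_o] at h2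
          exact (z_ne m).2 (fs_sn_inj _ _ h1 h2)
        · rw [x_e] at h2
          exact fs_sn _ _ h2.symm
    · rw [(v3 m).1] at hb
      rw [(v3 m).2] at h1
      cases b
      · exact hb rfl
      · simp only [mv, if_true] at h1
        rw [xd, show 17 + 4 * m - (7 + 2 * m) = 6 + 2 * (m + 2) by omega, x_e] at h1
        exact fs_sn _ _ h1.symm

lemma axis (n : ℕ) (h : 6 ≤ n) (b' : Bool) (h1 : mv n 0 false) (h2 : mv (n + 1) 1 b') : False := by
  simp only [mv, Bool.false_eq_true, if_false] at h1 h2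
  have x0 : x 0 = 0 := by simp [x]
  have x1 : x 1 = 1 := by simp [x]
  rcases Nat.even_or_odd' n with ⟨t, ht | ht⟩
  · obtain ⟨k, rfl⟩ : ∃ k, n = 6 + 2 * k := ⟨t - 3, by omega⟩
    rw [show 6 + 2 * k + 1 = 7 + 2 * k by omega, x_o] at h2
    split_ifs at h2
    · rw [show 7 + 2 * k - 1 = 6 + 2 * k by omega, x_e] at h2
      exact fs_sn _ _ h2.symm
    · exact (sn_ne _).2 (h2.trans x1)
  · obtain ⟨k, rfl⟩ : ∃ k, n = 7 + 2 * k := ⟨t - 3, by omega⟩
    rw [x_o] at h1
    exact (sn_ne _).1 (h1.trans x0)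

def J (s : ℕ → Bool) (n : ℕ) : ℕ := Nat.count (fun k => s k = false) n

lemma J_succ (s : ℕ → Bool) (n : ℕ) : J s (n + 1) = J s n + if s n = false then 1 else 0 :=
  Nat.count_succ _ _

lemma count_true (s : ℕ → Bool) (n : ℕ) :
    Nat.count (fun k => s k = true) n + J s n = n := by
  induction n with
  | zero => simp [J]
  | succ n ih => rw [J_succ, Nat.count_succ]; cases s n <;> simp <;> omega

lemma J_s0 (n : ℕ) : J s0 n = J0 n := by
  induction n with
  | zero => simp [J, J0, jl]
  | succ n ih => rw [J_succ, J0_succ, ih]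

theorem result : ∃ x : ℕ → Fin 5, ∃! s : ℕ → Bool, s 0 = true ∧ Steers x s := by
  have it : {n | s0 n = true}.Infinite :=
    Set.infinite_of_injective_forall_mem (f := fun m => 14 + 4 * m)
      (fun a b h => by simpa using h) (fun m => (v0 m).1)
  have iF : {n | s0 n = false}.Infinite :=
    Set.infinite_of_injective_forall_mem (f := fun m => 16 + 4 * m)
      (fun a b h => by simpa using h) (fun m => (v2 m).1)
  refine ⟨x, s0, ⟨by simp [s0, sl], it, iF, ?_, ?_⟩, ?_⟩
  · intro i
    have hm := Nat.nth_mem_of_infinite it i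
    have hc := Nat.count_nth_of_infinite it i
    have h := mv0 (Nat.nth (fun n => s0 n = true) i)
    have h3 := count_true s0 (Nat.nth (fun n => s0 n = true) i)
    rw [mv, if_pos hm, ← J_s0] at h
    rw [h]; congr 1; omega
  · intro i
    have hm := Nat.nth_mem_of_infinite iF i
    have hc := Nat.count_nth_of_infinite iF i
    have h := mv0 (Nat.nth (fun n => s0 n = false) i)
    rw [mv, if_neg (by rw [hm]; simp), ← J_s0] at h
    rw [h]; congr 1
  · rintro s ⟨hs0, -, hF, h1, h2⟩
    have hmv : ∀ n, mv n (J s n) (s n) := by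
      intro n
      unfold mv
      cases hn : s n
      · have := h2 (J s n)
        rw [J, Nat.nth_count (p := fun k => s k = false) hn] at this
        simpa [J] using this
      · have := h1 (Nat.count (fun k => s k = true) n)
        rw [Nat.nth_count (p := fun k => s k = true) hn] at this
        have h3 := count_true s n
        rw [if_pos rfl, this]; congr 1; omega
    have step : ∀ n, n ≠ 5 → J s n = J0 n → s n = s0 n := by
      intro n h5 hJ
      by_cases h0 : n = 0
      · subst h0; rw [hs0]; simp [s0, sl]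
      · by_contra hb
        have a1 := hmv n
        have a2 := hmv (n + 1)
        rw [J_succ, hJ] at a2
        rw [hJ] at a1
        exact dev n h0 h5 _ _ hb a1 a2
    have pre : ∀ n, n ≤ 5 → J s n = J0 n := by
      intro n hn
      induction n with
      | zero => simp [J, J0, jl]
      | succ n ih =>
        rw [J_succ, J0_succ, step n (by omega) (ih (by omega)), ih (by omega)]
    have s5 : s 5 = s0 5 := by
      by_contra hb
      have hs5 : s 5 = true := by
        have : s0 5 = false := by simp [s0, sl]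
        rw [this] at hb; simpa using hb
      have ax : ∀ n, J s (n + 6) = 0 ∧ s (n + 6) = true := by
        have key : ∀ n, J s (n + 6) = 0 → s (n + 6) = true := by
          intro n hn
          by_contra hc
          have hc' : s (n + 6) = false := by simpa using hc
          have a1 := hmv (n + 6)
          have a2 := hmv (n + 6 + 1)
          rw [J_succ, hn, hc'] at a2
          rw [hn, hc'] at a1
          exact axis (n + 6) (by omega) _ a1 (by simpa using a2)
        intro n
        induction n with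
        | zero =>
          have : J s (0 + 6) = 0 := by
            rw [show 0 + 6 = 5 + 1 by rfl, J_succ, pre 5 le_rfl, hs5]; simp [J0, jl]
          exact ⟨this, key 0 this⟩
        | succ n ih =>
          have : J s (n + 1 + 6) = 0 := by
            rw [show n + 1 + 6 = n + 6 + 1 by omega, J_succ, ih.1, ih.2]; simp
          exact ⟨this, key _ this⟩
      obtain ⟨n, hn, hlt⟩ := hF.exists_gt 6
      have := (ax (n - 6)).2
      rw [show n - 6 + 6 = n by omega] at this
      simp only [Set.mem_ofPred_eq] at hn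
      rw [hn] at this
      exact absurd this (by simp)
    have all : ∀ n, J s n = J0 n ∧ s n = s0 n := by
      have key : ∀ n, J s n = J0 n → s n = s0 n := by
        intro n hn
        by_cases h5 : n = 5
        · subst h5; exact s5
        · exact step n h5 hn
      intro n
      induction n with
      | zero => exact ⟨pre 0 (by omega), key 0 (pre 0 (by omega))⟩
      | succ n ih =>
        have : J s (n + 1) = J0 (n + 1) := by rw [J_succ, J0_succ, ih.1, ih.2]
        exact ⟨this, key _ this⟩
    exact funext fun n => (all n).2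

end Pool.Agent.Results.MP_814ec7_co.Q1
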